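import Pool.Agent.V8H46.FP.Closure

/-!
# Frege + permutation simulates extended Frege if and only if it is closed under substitutions

The definitions are in `Pool/Agent/H555R2/PF/Defs.lean` (formulas, Frege systems `IsFrege`,
extended Frege proofs `EFProof`, the size `psize` of a proof) and in
`Pool/Agent/V8H46/FP/Defs.lean` (`Pr`, `PermRule`, `Has`, `HasEF`, `Simulates`, `ClosedUnder`,
`AllSubst`, `VarSubst`, `ConstSubst`).

Ideas. Extended Frege simulates Frege + permutation (proved in `Pool/Agent/V8H46/FP/EFSim.lean`)
and is closed under substitutions, which gives one direction. Conversely, from an extended Frege
proof of `A` with `k` extension axioms one obtains a proof of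
`(q₁ ↔ r₁) ∨ … ∨ (q_k ↔ r_k) ∨ A` in Frege + permutation, the variables `q_i, r_i` being new
(see `FregeSimulatesSwaps`). If Frege + permutation is closed under the substitution of truth
constants one can put `true` for `q_i`, `false` for `r_i` and obtains `A`. If it is closed under
the identification of variables one can put a variable `x` of `A` for all `q_i` and another
variable `y` of `A` for all `r_i` and obtains `(x ↔ y) ∨ A`; there remain the two cases in which
all variables of `A` have the same value.
-/

set_option autoImplicit false

namespace Pool.Agent.Results.MP_0447ec_lc.ClosureUnderSubstitution

open Pool.Agent.H555R2.PF Pool.Agent.V8H46.FP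

/-- For every Frege system `F` the following are equivalent: `F` + permutation polynomially
simulates extended Frege; it is closed under all substitutions; it is closed under substitutions
of variables for variables; it is closed under the substitution of truth constants for some
variables (always with a polynomial increase of the size of proofs). -/
theorem result (F : List Rule) (hF : IsFrege F) :
    List.TFAE [Simulates (Has F PermRule) (HasEF F),
      ClosedUnder (Has F PermRule) AllSubst,
      ClosedUnder (Has F PermRule) VarSubst,
      ClosedUnder (Has F PermRule) ConstSubst] :=
  closure_tfae F hF

end Pool.Agent.Results.MP_0447ec_lc.ClosureUnderSubstitution
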