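import Pool.Agent.V8H46.FP.Upper5

/-!
# Frege + permutation on dual-rail formulas needs only `O(n log S)` auxiliary variables

The definitions are in `Pool/Agent/H555R2/PF/Defs.lean` (formulas, `IsFrege`, `EFProof`, `psize`),
in `Pool/Agent/V8H46/FP/Defs.lean` (`Has`, `HasEF`, `PermRule`, `Simulates`) and in
`Pool/Agent/V8H46/FP/AuxDefs.lean` (`AuxRule1`, `dual`).

Idea. Under the hypotheses `x_i ≢ x_i'` exactly `n` of the `2 n` variables of the dual-rail formula
are true; think of them as of `n` tokens. A permutation of the (at most `S + 2 n`) variables of the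
proof moves the tokens. The positions of the `n` tokens are stored, in binary, in `O(n log S)`
auxiliary variables; every variable `p_v` of the proof is replaced by the formula `some token is
in the position v`, and the permutation rule is simulated by an update of the positions, that is,
by substitutions for the auxiliary variables.
-/

set_option autoImplicit false

namespace Pool.Agent.Results.MP_0447ec_lc.DualRailSpace

open Pool.Agent.H555R2.PF Pool.Agent.V8H46.FP

/-- For every Frege system `F`:

1. there is a constant `e` such that, whenever `A` is a formula in the variables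
`p_0, …, p_(n-1)` and Frege + permutation proves the dual-rail version of `A` with size `S`, there
is a `c` with `2 ^ c ≤ S ^ e + e`, i.e. `c = O(log S)`, such that `A` has a proof of size at most
`S ^ e + e` in `F` with the substitution rule for the `n * c` auxiliary variables
`p_n, …, p_(n+n*c-1)`;

2. Frege + permutation polynomially simulates extended Frege on dual-rail formulas if and only if
`F` with the substitution rule for `O(n log S)` auxiliary variables polynomially simulates extended
Frege (`S` being the size of the extended Frege proof and `n` the number of variables of the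
formula);

3. in particular, if Frege + permutation polynomially simulates extended Frege then `F` with the
substitution rule for `O(n log S)` auxiliary variables polynomially simulates extended Frege. -/
theorem result (F : List Rule) (hF : IsFrege F) :
    (∃ e : ℕ, ∀ (n : ℕ) (A : Fm) (S : ℕ), (∀ v ∈ A.vars, v < n) →
      Has F PermRule (dual A n n) S →
      ∃ c : ℕ, 2 ^ c ≤ S ^ e + e ∧ Has F (AuxRule1 n (n * c)) A (S ^ e + e)) ∧
    ((∃ e : ℕ, ∀ (n : ℕ) (A : Fm) (S : ℕ), (∀ v ∈ A.vars, v < n) → HasEF F A S →
        Has F PermRule (dual A n n) ((S + n) ^ e + e)) ↔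
      (∃ e : ℕ, ∀ (n : ℕ) (A : Fm) (S : ℕ), (∀ v ∈ A.vars, v < n) → HasEF F A S →
        ∃ c : ℕ, 2 ^ c ≤ (S + n) ^ e + e ∧ Has F (AuxRule1 n (n * c)) A ((S + n) ^ e + e))) ∧
    (Simulates (Has F PermRule) (HasEF F) →
      (∃ e : ℕ, ∀ (n : ℕ) (A : Fm) (S : ℕ), (∀ v ∈ A.vars, v < n) → HasEF F A S →
        ∃ c : ℕ, 2 ^ c ≤ (S + n) ^ e + e ∧ Has F (AuxRule1 n (n * c)) A ((S + n) ^ e + e))) :=
  ⟨upper_main F hF, upper_iff F hF, necessary F hF⟩

end Pool.Agent.Results.MP_0447ec_lc.DualRailSpace
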