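import Pool.Agent.V8H46.FP.EFAux

/-!
# Frege + permutation simulates linearly many extension variables on dual-rail formulas

The definitions are in `Pool/Agent/H555R2/PF/Defs.lean` (formulas, `IsFrege`, `EFProof`, `psize`),
in `Pool/Agent/V8H46/FP/Defs.lean` (`Has`, `PermRule`) and in `Pool/Agent/V8H46/FP/AuxDefs.lean`
(`AuxRule1`, `dual`).

Idea. Let `K = 2 ^ (c + 1)`. For every `i < n` take a block of `K` cells (variables), two of which
are `x_i` and `x_i'`. If exactly one cell of the block is true, then its number `b < K` stores the
truth value of `x_i` together with `c` further bits, the values of `c` auxiliary variables. A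
substitution of `φ` for the auxiliary variable number `k` of the block `i` is simulated by the
permutation which sends the cell `b` of this block to the cell `b xor 2 ^ k`: Frege proves the
formula for the old and for the new contents of the store, and one of these two contents is the
one in which the auxiliary variable has the value of `φ`. At the end all the cells except
`x_i, x_i'` are eliminated.
-/

set_option autoImplicit false

namespace Pool.Agent.Results.MP_0447ec_lc.DualRailStorage

open Pool.Agent.H555R2.PF Pool.Agent.V8H46.FP

/-- For every Frege system `F` there is a constant `e` such that the following holds. Let `A` be a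
formula in the variables `p_0, …, p_(n-1)` and suppose that `A` has a proof of size `S` either in
`F` with the substitution rule for the `n * c` auxiliary variables `p_n, …, p_(n+n*c-1)`, or in
extended Frege with at most `n * c` extension axioms. Then the dual-rail version of `A`, namely
`(p_(n-1) ≢ p_(2n-1)) → (… → ((p_0 ≢ p_n) → A))`, has a proof of size at most
`(S + n + 2 ^ c) ^ e + e` in Frege + permutation. -/
theorem result (F : List Rule) (hF : IsFrege F) : ∃ e : ℕ, ∀ (c n : ℕ) (A : Fm) (S : ℕ),
    (∀ v ∈ A.vars, v < n) →
    (Has F (AuxRule1 n (n * c)) A S ∨
      ∃ k L, k ≤ n * c ∧ EFProof F A k (A :: L) ∧ psize (A :: L) ≤ S) →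
    Has F PermRule (dual A n n) ((S + n + 2 ^ c) ^ e + e) :=
  store_both F hF

end Pool.Agent.Results.MP_0447ec_lc.DualRailStorage
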