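import Pool.Agent.V8H46.FP.Swap

/-!
# Frege simulates Frege + permutation if and only if it simulates extended Frege

The definitions are in `Pool/Agent/H555R2/PF/Defs.lean` (formulas, Frege systems `IsFrege`,
extended Frege proofs `EFProof`, the size `psize` of a proof) and in
`Pool/Agent/V8H46/FP/Defs.lean` (`Pr`, `NoRule`, `PermRule`, `SwapRule`, `Has`, `HasEF`,
`Simulates`).

Idea of the new implication. Let `A` have an extended Frege proof with the extension axioms
`q₁ ↔ φ₁, …, q_k ↔ φ_k`. Frege proves `(q_k ↔ φ_k) ∧ H → A`; interchange `q_k` with a new variable
`r`, which does not occur in `φ_k, H, A`; the two formulas together give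
`H → (q_k ↔ r) ∨ A`. Going on in this way, Frege with swaps proves
`(q₁ ↔ r₁) ∨ … ∨ (q_k ↔ r_k) ∨ A`. If Frege simulates Frege with swaps then it proves this formula,
and, as Frege proofs are closed under substitutions, one can put `true` for `q_i` and `false`
for `r_i`.
-/

set_option autoImplicit false

namespace Pool.Agent.Results.MP_0447ec_lc.FregeSimulatesSwaps

open Pool.Agent.H555R2.PF Pool.Agent.V8H46.FP

/-- For every Frege system `F` the following are equivalent, all simulations being polynomial:
`F` simulates extended Frege; `F` simulates Frege + permutation; `F` simulates Frege + swaps, where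
the only additional rule is the interchange of the variables `p_(2 i)` and `p_(2 i + 1)`. -/
theorem result (F : List Rule) (hF : IsFrege F) :
    List.TFAE [Simulates (Has F NoRule) (HasEF F),
      Simulates (Has F NoRule) (Has F PermRule),
      Simulates (Has F NoRule) (Has F SwapRule)] := by
  tfae_have 1 → 2 := frege_sim_perm F hF
  tfae_have 2 → 3 := frege_sim_swap F
  tfae_have 3 → 1 := frege_sim F hF
  tfae_finish

end Pool.Agent.Results.MP_0447ec_lc.FregeSimulatesSwaps
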